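import Mathlib

set_option autoImplicit false

namespace Pool.Agent.J6H11.Fish

open Finset

section

variable {R : Type*} [CommRing R]

/-- the neighbour sum -/
def SS (f : ℕ → ℕ → R) (P Q : ℕ) : R :=
  ∑ j ∈ range P, f (P - j) (Q + 1 + j) + ∑ s ∈ range (Q - 1), f (P + (s + 1)) (Q - (s + 1))

/-- the antidiagonal sum -/
def EE (f : ℕ → ℕ → R) (M : ℕ) : R :=
  ∑ s ∈ range (M - 1), f (s + 1) (M - (s + 1))

/-- the weights -/
def w (u v : R) : ℕ → ℕ → ℕ → R
  | 0, _, _ => u * v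
  | n + 1, P, Q => w u v n P Q + SS (w u v n) P Q
      + (u - 1) * (w u v n 0 Q + EE (w u v n) Q) + (v - 1) * EE (w u v n) (P + 1)

theorem EE_one (f : ℕ → ℕ → R) : EE f 1 = 0 := by simp [EE]

theorem SS_zero (f : ℕ → ℕ → R) (Q : ℕ) : SS f 0 Q = EE f Q := by
  simp [SS, EE]

theorem w_zero (u v : R) (n Q : ℕ) :
    w u v (n + 1) 0 Q = u * (w u v n 0 Q + EE (w u v n) Q) := by
  rw [w, SS_zero, EE_one]
  ring

theorem SS_congr (f g : ℕ → ℕ → R) (h : ∀ P Q, 1 ≤ P → 1 ≤ Q → f P Q = g P Q) (P Q : ℕ)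
    (hP : 1 ≤ P) (hQ : 1 ≤ Q) : SS f P Q = SS g P Q := by
  unfold SS
  congr 1
  · apply sum_congr rfl
    intro j hj
    rw [mem_range] at hj
    exact h _ _ (by omega) (by omega)
  · apply sum_congr rfl
    intro j hj
    rw [mem_range] at hj
    exact h _ _ (by omega) (by omega)

theorem EE_congr (f g : ℕ → ℕ → R) (h : ∀ P Q, 1 ≤ P → 1 ≤ Q → f P Q = g P Q) (M : ℕ) :
    EE f M = EE g M := by
  unfold EE
  apply sum_congr rfl
  intro j hj
  rw [mem_range] at hj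
  exact h _ _ (by omega) (by omega)

/-- Key identity. -/
theorem SS_key (ψ : ℕ → R) (P Q : ℕ) (hQ : 1 ≤ Q) :
    SS (fun P Q => ψ (P + 1) - ψ Q) P Q = ψ Q - ψ 1 := by
  have hF : ∀ n, ∑ j ∈ range P, ψ (n + 1 + j) = ∑ j ∈ range (n + P), ψ (j + 1)
      - ∑ j ∈ range n, ψ (j + 1) := by
    intro n
    rw [sum_range_add]
    rw [add_sub_cancel_left]
    apply sum_congr rfl
    intro j _
    congr 1
    ring
  obtain ⟨q, rfl⟩ : ∃ q, Q = q + 1 := ⟨Q - 1, by omega⟩
  unfold SS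
  simp only [add_tsub_cancel_right]
  rw [sum_sub_distrib, sum_sub_distrib]
  have h1 : ∑ j ∈ range P, ψ (P - j + 1) = ∑ j ∈ range P, ψ (1 + 1 + j) := by
    rw [← sum_range_reflect]
    apply sum_congr rfl
    intro j hj
    rw [mem_range] at hj
    congr 1
    omega
  have h2 : ∑ s ∈ range q, ψ (q + 1 - (s + 1)) = ∑ s ∈ range q, ψ (s + 1) := by
    rw [← sum_range_reflect]
    apply sum_congr rfl
    intro j hj
    rw [mem_range] at hj
    congr 1
    omega
  have h3 : ∑ s ∈ range q, ψ (P + (s + 1) + 1) = ∑ j ∈ range (q + 1 + P), ψ (j + 1)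
      - ∑ j ∈ range (1 + P), ψ (j + 1) := by
    have : q + 1 + P = (1 + P) + q := by ring
    rw [this, sum_range_add, add_sub_cancel_left]
    apply sum_congr rfl
    intro j _
    congr 1
    ring
  have h4 := hF 1
  have h5 := hF (q + 1)
  rw [h1, h2, h3, h4, h5, sum_range_succ (fun j => ψ (j + 1)) q]
  simp
  ring

theorem SS_sub (f g : ℕ → ℕ → R) (P Q : ℕ) :
    SS (fun P Q => f P Q - g P Q) P Q = SS f P Q - SS g P Q := by
  simp only [SS, sum_sub_distrib]
  ring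

theorem SS_mul (c : R) (f : ℕ → ℕ → R) (P Q : ℕ) :
    SS (fun P Q => c * f P Q) P Q = c * SS f P Q := by
  simp only [SS, ← mul_sum]
  ring

theorem SS_add (f g : ℕ → ℕ → R) (P Q : ℕ) :
    SS (fun P Q => f P Q + g P Q) P Q = SS f P Q + SS g P Q := by
  simp only [SS, sum_add_distrib]
  ring

/-- the symmetric sequence -/
def z (u v : R) (n : ℕ) (P Q : ℕ) : R :=
  w u v (n + 1) P Q - u * w u v n P Q
    + (u - 1) * (EE (w u v n) (P + 1) - EE (w u v n) Q)

theorem w_succ (u v : R) (n P Q : ℕ) : w u v (n + 1) P Q = w u v n P Q + SS (w u v n) P Q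
      + (u - 1) * (w u v n 0 Q + EE (w u v n) Q) + (v - 1) * EE (w u v n) (P + 1) := by
  rw [w]

theorem z_zero (u v : R) (P Q : ℕ) :
    z u v 0 P Q = SS (w u v 0) P Q + (u + v - 2) * EE (w u v 0) (P + 1) := by
  rw [z, w_succ]
  simp only [w]
  ring

theorem z_succ (u v : R) (n P Q : ℕ) (_ : 1 ≤ P) (hQ : 1 ≤ Q) :
    z u v (n + 1) P Q = z u v n P Q + SS (z u v n) P Q
      + (u + v - 2) * EE (w u v (n + 1)) (P + 1) + (1 - u * v) * EE (w u v n) (P + 1) := by
  have h1 : SS (z u v n) P Q = SS (w u v (n + 1)) P Q - u * SS (w u v n) P Q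
      + (u - 1) * EE (w u v n) Q := by
    have : SS (z u v n) P Q = SS (fun P Q => (w u v (n + 1) P Q - u * w u v n P Q)
        + (u - 1) * (EE (w u v n) (P + 1) - EE (w u v n) Q)) P Q := rfl
    rw [this, SS_add, SS_sub, SS_mul, SS_mul, SS_key _ _ _ hQ, EE_one, sub_zero]
  rw [h1]
  have h2 := w_zero u v n Q
  have h3 := w_succ u v (n + 1) P Q
  have h4 := w_succ u v n P Q
  rw [z, z, h3, h2]
  linear_combination (-u) * h4

theorem EE_z (u v : R) (n M : ℕ) : EE (z u v n) M = EE (w u v (n + 1)) M - EE (w u v n) M := by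
  have h1 : ∀ ψ : ℕ → R, ψ 1 = 0 → ∑ s ∈ range (M - 1), (ψ (s + 1 + 1) - ψ (M - (s + 1))) =
      if M = 0 then 0 else ψ M := by
    intro ψ hψ
    rcases Nat.eq_zero_or_pos M with rfl | hM
    · simp
    · obtain ⟨m, rfl⟩ : ∃ m, M = m + 1 := ⟨M - 1, by omega⟩
      rw [if_neg (by omega), sum_sub_distrib, add_tsub_cancel_right]
      have h2 : ∑ s ∈ range m, ψ (m + 1 - (s + 1)) = ∑ s ∈ range m, ψ (s + 1) := by
        rw [← sum_range_reflect]
        apply sum_congr rfl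
        intro j hj
        rw [mem_range] at hj
        congr 1
        omega
      rw [h2, ← sum_sub_distrib, sum_range_sub (fun s => ψ (s + 1))]
      simp [hψ]
  have h2 : EE (z u v n) M = EE (w u v (n + 1)) M - u * EE (w u v n) M
      + (u - 1) * ∑ s ∈ range (M - 1), (EE (w u v n) (s + 1 + 1) - EE (w u v n) (M - (s + 1))) := by
    unfold EE
    rw [mul_sum, mul_sum, ← sum_sub_distrib, ← sum_add_distrib]
    rfl
  rw [h2, h1 _ (EE_one _)]
  split_ifs with h
  · subst h; simp [EE]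
  · ring

theorem symm_main (u v : R) : ∀ n : ℕ, (∀ P Q, 1 ≤ P → 1 ≤ Q → z u v n P Q = z v u n P Q) ∧
    (∀ M, EE (w u v n) M = EE (w v u n) M) ∧ (∀ M, EE (w u v (n + 1)) M = EE (w v u (n + 1)) M)
  | 0 => by
    have h0 : ∀ P Q, w u v 0 P Q = w v u 0 P Q := by
      intro P Q; simp only [w]; ring
    have h1 : ∀ M, EE (w u v 0) M = EE (w v u 0) M := fun M => EE_congr _ _ (fun P Q _ _ => h0 P Q) M
    have h2 : ∀ P Q, 1 ≤ P → 1 ≤ Q → z u v 0 P Q = z v u 0 P Q := by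
      intro P Q hP hQ
      rw [z_zero, z_zero, h1, SS_congr _ _ (fun P Q _ _ => h0 P Q) P Q hP hQ]
      ring
    refine ⟨h2, h1, ?_⟩
    intro M
    have h3 := EE_z u v 0 M
    have h4 := EE_z v u 0 M
    rw [EE_congr _ _ h2 M, h1] at h3
    linear_combination h4 - h3
  | n + 1 => by
    obtain ⟨ih1, ih2, ih3⟩ := symm_main u v n
    have h2 : ∀ P Q, 1 ≤ P → 1 ≤ Q → z u v (n + 1) P Q = z v u (n + 1) P Q := by
      intro P Q hP hQ
      rw [z_succ _ _ _ _ _ hP hQ, z_succ _ _ _ _ _ hP hQ, ih1 P Q hP hQ, SS_congr _ _ ih1 P Q hP hQ,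
        ih2, ih3]
      ring
    refine ⟨h2, ih3, ?_⟩
    intro M
    have h3 := EE_z u v (n + 1) M
    have h4 := EE_z v u (n + 1) M
    rw [EE_congr _ _ h2 M, ih3] at h3
    linear_combination h4 - h3

theorem w_one_one (u v : R) (n : ℕ) : w u v n 1 1 = w v u n 1 1 := by
  have h := (symm_main u v n).2.1 2
  simpa [EE] using h

end

end Pool.Agent.J6H11.Fish
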