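import Pool.Agent.J6H11.Fish.Tree

set_option autoImplicit false

namespace Pool.Agent.J6H11.Fish

open Finset Equiv

/-- Extension of a permutation of `Fin m` by a fixed point at `0`. -/
def up {m : ℕ} (π : Perm (Fin m)) : Perm (Fin (m + 1)) := Perm.decomposeFin.symm (0, π)

theorem up_zero {m : ℕ} (π : Perm (Fin m)) : up π 0 = 0 := by
  simp [up]

theorem up_succ {m : ℕ} (π : Perm (Fin m)) (i : Fin m) : up π i.succ = (π i).succ := by
  simp [up]

/-- Put the value `c` in front. -/
def cons {m : ℕ} (c : Fin (m + 1)) (σ : Perm (Fin m)) : Perm (Fin (m + 1)) :=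
  c.cycleRange⁻¹ * up σ

theorem cons_zero {m : ℕ} (c : Fin (m + 1)) (σ : Perm (Fin m)) : cons c σ 0 = c := by
  rw [cons, Perm.mul_apply, up_zero]
  exact Fin.cycleRange_symm_zero c

theorem cons_succ {m : ℕ} (c : Fin (m + 1)) (σ : Perm (Fin m)) (i : Fin m) :
    cons c σ i.succ = c.succAbove (σ i) := by
  rw [cons, Perm.mul_apply, up_succ]
  exact Fin.cycleRange_symm_succ c (σ i)

theorem cons_succ_val {m : ℕ} (c : Fin (m + 1)) (σ : Perm (Fin m)) (i : Fin m) :
    (cons c σ i.succ : ℕ) = if (σ i : ℕ) < c then (σ i : ℕ) else (σ i : ℕ) + 1 := by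
  rw [cons_succ, Fin.succAbove]
  have h : ((σ i).castSucc < c) ↔ ((σ i : ℕ) < c) := by
    rw [Fin.lt_def]; simp
  by_cases h1 : (σ i : ℕ) < c
  · rw [if_pos (h.2 h1), if_pos h1]; simp
  · rw [if_neg (fun h' => h1 (h.1 h')), if_neg h1]; simp

theorem bij_cons {m : ℕ} : Function.Bijective
    (fun x : Fin (m + 1) × Perm (Fin m) => cons x.1 x.2) := by
  rw [Fintype.bijective_iff_injective_and_card]
  constructor
  · rintro ⟨i, π⟩ ⟨j, ρ⟩ h
    simp only at h
    have h0 := congrArg (fun f => f 0) h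
    simp only [cons_zero] at h0
    subst h0
    have h1 : up π = up ρ := mul_left_cancel h
    have h2 : ((0 : Fin (m + 1)), π) = ((0 : Fin (m + 1)), ρ) := Perm.decomposeFin.symm.injective h1
    have h3 : π = ρ := congrArg Prod.snd h2
    rw [h3]
  · rw [Fintype.card_prod, Fintype.card_perm, Fintype.card_perm, Fintype.card_fin, Fintype.card_fin,
      Nat.factorial_succ]

theorem sum_cons {R : Type*} [CommRing R] {m : ℕ} (F : Perm (Fin (m + 1)) → R) :
    ∑ σ : Perm (Fin (m + 1)), F σ =
      ∑ π : Perm (Fin m), ∑ j : Fin (m + 1), F (cons j π) := by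
  rw [← bij_cons.sum_comp, Fintype.sum_prod_type, sum_comm]

/-- the words -/
def good {m : ℕ} (σ : Perm (Fin m)) : Prop :=
  ∀ x y z : Fin m, (x : ℕ) + 1 = z → (σ z : ℕ) < σ x → (y : ℕ) < x → (σ y : ℕ) ≠ σ z + 1

/-- allowed values for a new first entry -/
def al {m : ℕ} (σ : Perm (Fin m)) (d : ℕ) : Prop :=
  ∀ x z : Fin m, (x : ℕ) + 1 = z → (σ z : ℕ) < σ x → d ≠ σ z + 1

theorem good_cons {m : ℕ} (c : Fin (m + 1)) (σ : Perm (Fin m)) :
    good (cons c σ) ↔ good σ ∧ al σ c := by
  constructor
  · intro h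
    have hal : al σ c := by
      intro x z hxz hlt hc
      have h1 := h x.succ 0 z.succ (by simp; omega)
      rw [cons_succ_val, cons_succ_val, cons_zero] at h1
      simp at h1
      split_ifs at h1 <;> omega
    refine ⟨?_, hal⟩
    intro x y z hxz hlt hyx hc
    have h1 := h x.succ y.succ z.succ (by simp; omega)
    have h2 := hal x z hxz hlt
    rw [cons_succ_val, cons_succ_val, cons_succ_val] at h1
    simp at h1
    split_ifs at h1 <;> omega
  · rintro ⟨h1, h2⟩ x y z hxz hlt hyx hc
    have hx0 : x ≠ 0 := by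
      intro h; subst h; simp at hyx
    have hz0 : z ≠ 0 := by
      intro h; subst h; simp at hxz
    obtain ⟨x, rfl⟩ := Fin.exists_succ_eq.2 hx0
    obtain ⟨z, rfl⟩ := Fin.exists_succ_eq.2 hz0
    have hxz' : (x : ℕ) + 1 = z := by simpa using hxz
    by_cases hy0 : y = 0
    · subst hy0
      rw [cons_zero, cons_succ_val] at hc
      rw [cons_succ_val, cons_succ_val] at hlt
      have h3 := h2 x z hxz'
      split_ifs at hc hlt <;> omega
    · obtain ⟨y, rfl⟩ := Fin.exists_succ_eq.2 hy0
      have hyx' : (y : ℕ) < x := by simpa using hyx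
      rw [cons_succ_val, cons_succ_val] at hc
      rw [cons_succ_val, cons_succ_val] at hlt
      have h3 := h1 x y z hxz'
      have h4 := h2 x z hxz'
      split_ifs at hc hlt <;> omega

theorem al_cons_le {m : ℕ} (c : Fin (m + 2)) (σ : Perm (Fin (m + 1))) (d : ℕ) (hd : d ≤ c) :
    al (cons c σ) d ↔ al σ d ∧ ((σ 0 : ℕ) < c → d ≠ σ 0 + 1) := by
  constructor
  · intro h
    constructor
    · intro x z hxz hlt hc
      have h1 := h x.succ z.succ (by simp; omega)
      rw [cons_succ_val, cons_succ_val] at h1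
      split_ifs at h1 <;> omega
    · intro h0 hc
      have h1 := h 0 (Fin.succ 0) (by simp)
      rw [cons_succ_val, cons_zero] at h1
      split_ifs at h1 <;> omega
  · rintro ⟨h1, h2⟩ x z hxz hlt hc
    have hz0 : z ≠ 0 := by
      intro h; subst h; simp at hxz
    obtain ⟨z, rfl⟩ := Fin.exists_succ_eq.2 hz0
    by_cases hx0 : x = 0
    · subst hx0
      have hz : z = 0 := by
        apply Fin.ext
        simp only [Fin.val_zero, Fin.val_succ] at hxz ⊢
        omega
      subst hz
      rw [cons_succ_val, cons_zero] at hlt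
      rw [cons_succ_val] at hc
      split_ifs at hc hlt <;> omega
    · obtain ⟨x, rfl⟩ := Fin.exists_succ_eq.2 hx0
      have hxz' : (x : ℕ) + 1 = z := by simpa using hxz
      have h3 := h1 x z hxz'
      rw [cons_succ_val, cons_succ_val] at hlt
      rw [cons_succ_val] at hc
      split_ifs at hc hlt <;> omega

theorem al_cons_gt {m : ℕ} (c : Fin (m + 2)) (σ : Perm (Fin (m + 1))) (hc : al σ c) (d : ℕ)
    (hd : (c : ℕ) < d) :
    al (cons c σ) d ↔ al σ (d - 1) := by
  constructor
  · intro h x z hxz hlt hc'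
    have h1 := h x.succ z.succ (by simp; omega)
    have h2 := hc x z hxz hlt
    rw [cons_succ_val, cons_succ_val] at h1
    split_ifs at h1 <;> omega
  · rintro h1 x z hxz hlt hc'
    have hz0 : z ≠ 0 := by
      intro h; subst h; simp at hxz
    obtain ⟨z, rfl⟩ := Fin.exists_succ_eq.2 hz0
    by_cases hx0 : x = 0
    · subst hx0
      have hz : z = 0 := by
        apply Fin.ext
        simp only [Fin.val_zero, Fin.val_succ] at hxz ⊢
        omega
      subst hz
      rw [cons_succ_val, cons_zero] at hlt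
      rw [cons_succ_val] at hc'
      split_ifs at hc' hlt <;> omega
    · obtain ⟨x, rfl⟩ := Fin.exists_succ_eq.2 hx0
      have hxz' : (x : ℕ) + 1 = z := by simpa using hxz
      have h3 := h1 x z hxz'
      rw [cons_succ_val, cons_succ_val] at hlt
      rw [cons_succ_val] at hc'
      split_ifs at hc' hlt <;> omega

open scoped Classical in
/-- number of left-to-right minima of value `< d` -/
noncomputable def cntMin {m : ℕ} (σ : Perm (Fin m)) (d : ℕ) : ℕ :=
  (univ.filter fun x : Fin m => (σ x : ℕ) < d ∧ ∀ y < x, (σ x : ℕ) < σ y).card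

open scoped Classical in
/-- number of left-to-right maxima of value `≥ d` -/
noncomputable def cntMax {m : ℕ} (σ : Perm (Fin m)) (d : ℕ) : ℕ :=
  (univ.filter fun x : Fin m => d ≤ (σ x : ℕ) ∧ ∀ y < x, (σ y : ℕ) < σ x).card

theorem card_filter_succ' {m : ℕ} (P : Fin (m + 1) → Prop) [DecidablePred P] :
    (univ.filter P).card = (if P 0 then 1 else 0) +
      (univ.filter (fun x : Fin m => P x.succ)).card := by
  rw [card_filter, card_filter, Fin.sum_univ_succ]

theorem cntMin_cons {m : ℕ} (c : Fin (m + 1)) (σ : Perm (Fin m)) (d : ℕ) :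
    cntMin (cons c σ) d = (if (c : ℕ) < d then 1 else 0) + cntMin σ (min c d) := by
  classical
  unfold cntMin
  rw [card_filter_succ']
  congr 1
  · simp [cons_zero]
  · congr 1
    apply filter_congr
    intro x _
    rw [cons_succ_val]
    constructor
    · rintro ⟨h1, h2⟩
      have h3 := h2 0 (Fin.succ_pos x)
      rw [cons_zero] at h3
      refine ⟨by rw [lt_min_iff]; split_ifs at h1 h3 <;> omega, ?_⟩
      intro y hy
      have h4 := h2 y.succ (Fin.succ_lt_succ_iff.2 hy)
      rw [cons_succ_val] at h4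
      split_ifs at h1 h3 h4 <;> omega
    · rintro ⟨h1, h2⟩
      rw [lt_min_iff] at h1
      refine ⟨by split_ifs <;> omega, ?_⟩
      intro y hy
      by_cases hy0 : y = 0
      · subst hy0
        rw [cons_zero]
        split_ifs <;> omega
      · obtain ⟨y, rfl⟩ := Fin.exists_succ_eq.2 hy0
        have h4 := h2 y (Fin.succ_lt_succ_iff.1 hy)
        rw [cons_succ_val]
        split_ifs <;> omega

theorem cntMax_cons {m : ℕ} (c : Fin (m + 1)) (σ : Perm (Fin m)) (d : ℕ) :
    cntMax (cons c σ) d = (if d ≤ (c : ℕ) then 1 else 0) + cntMax σ (max c (d - 1)) := by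
  classical
  unfold cntMax
  rw [card_filter_succ']
  congr 1
  · simp [cons_zero]
  · congr 1
    apply filter_congr
    intro x _
    rw [cons_succ_val]
    constructor
    · rintro ⟨h1, h2⟩
      have h3 := h2 0 (Fin.succ_pos x)
      rw [cons_zero] at h3
      refine ⟨by rw [max_le_iff]; split_ifs at h1 h3 <;> omega, ?_⟩
      intro y hy
      have h4 := h2 y.succ (Fin.succ_lt_succ_iff.2 hy)
      rw [cons_succ_val] at h4
      split_ifs at h1 h3 h4 <;> omega
    · rintro ⟨h1, h2⟩
      rw [max_le_iff] at h1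
      refine ⟨by split_ifs <;> omega, ?_⟩
      intro y hy
      by_cases hy0 : y = 0
      · subst hy0
        rw [cons_zero]
        split_ifs <;> omega
      · obtain ⟨y, rfl⟩ := Fin.exists_succ_eq.2 hy0
        have h4 := h2 y (Fin.succ_lt_succ_iff.1 hy)
        rw [cons_succ_val]
        split_ifs <;> omega

theorem cntMin_gt {m : ℕ} (σ : Perm (Fin (m + 1))) (d : ℕ) (hd : (σ 0 : ℕ) < d) :
    cntMin σ d = 1 + cntMin σ (σ 0) := by
  classical
  unfold cntMin
  rw [card_filter_succ', card_filter_succ' (fun x : Fin (m + 1) => (σ x : ℕ) < (σ 0 : ℕ) ∧ _)]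
  rw [if_pos ⟨hd, fun y hy => absurd hy (Fin.not_lt_zero y)⟩, if_neg (by simp), zero_add]
  congr 2
  apply filter_congr
  intro x _
  constructor
  · rintro ⟨h1, h2⟩
    exact ⟨h2 0 (Fin.succ_pos x), h2⟩
  · rintro ⟨h1, h2⟩
    exact ⟨by omega, h2⟩

theorem cntMax_le {m : ℕ} (σ : Perm (Fin (m + 1))) (d : ℕ) (hd : d ≤ (σ 0 : ℕ)) :
    cntMax σ d = 1 + cntMax σ (σ 0 + 1) := by
  classical
  unfold cntMax
  rw [card_filter_succ', card_filter_succ' (fun x : Fin (m + 1) => (σ 0 : ℕ) + 1 ≤ (σ x : ℕ) ∧ _)]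
  rw [if_pos ⟨hd, fun y hy => absurd hy (Fin.not_lt_zero y)⟩, if_neg (by simp), zero_add]
  congr 2
  apply filter_congr
  intro x _
  constructor
  · rintro ⟨h1, h2⟩
    exact ⟨h2 0 (Fin.succ_pos x), h2⟩
  · rintro ⟨h1, h2⟩
    exact ⟨by omega, h2⟩

section

variable {R : Type*} [CommRing R]

open scoped Classical in
/-- sum over the extensions -/
noncomputable def TT (u v : R) : ℕ → ∀ m : ℕ, Perm (Fin m) → R
  | 0, m, σ => u ^ cntMin σ m * v ^ cntMax σ 0
  | k + 1, m, σ => ∑ c : Fin (m + 1), if al σ c then TT u v k (m + 1) (cons c σ) else 0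

open scoped Classical in
noncomputable def FF (u v : R) (m k : ℕ) : R :=
  ∑ σ : Perm (Fin m), if good σ then TT u v k m σ else 0

theorem FF_succ (u v : R) (m k : ℕ) : FF u v (m + 1) k = FF u v m (k + 1) := by
  classical
  unfold FF
  rw [sum_cons]
  apply sum_congr rfl
  intro π _
  rw [TT]
  by_cases h : good π
  · rw [if_pos h]
    apply sum_congr rfl
    intro c _
    congr 1
    rw [good_cons]
    simp [h]
  · rw [if_neg h]
    apply sum_eq_zero
    intro c _
    rw [if_neg]
    rw [good_cons]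
    exact fun h' => h h'.1

theorem FF_one (u v : R) (k : ℕ) : ∀ m, FF u v (m + 1) k = FF u v 1 (m + k) := by
  intro m
  induction m generalizing k with
  | zero => rw [Nat.zero_add, Nat.zero_add]
  | succ m ih => rw [FF_succ, ih]; congr 1; omega

end

end Pool.Agent.J6H11.Fish
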