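import Pool.Agent.J6H11.Fish.Perm

set_option autoImplicit false

namespace Pool.Agent.J6H11.Fish

open Finset Equiv

/-- `lo 1 > lo 2 > … > lo p` are the allowed values `≤ σ 0`, and `hi 0 < hi 1 < … < hi q` the
allowed values `> σ 0`. -/
structure Rep {m : ℕ} (σ : Perm (Fin (m + 1))) (p q : ℕ) (lo hi : ℕ → ℕ) : Prop where
  lo_anti : ∀ i j, 1 ≤ i → i < j → j ≤ p → lo j < lo i
  hi_mono : ∀ i j, i < j → j ≤ q → hi i < hi j
  lo_le : ∀ i, 1 ≤ i → i ≤ p → lo i ≤ (σ 0 : ℕ)
  lo_al : ∀ i, 1 ≤ i → i ≤ p → al σ (lo i)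
  lo_ex : ∀ d, d ≤ (σ 0 : ℕ) → al σ d → ∃ i, 1 ≤ i ∧ i ≤ p ∧ lo i = d
  hi_gt : ∀ s, s ≤ q → (σ 0 : ℕ) < hi s
  hi_le : ∀ s, s ≤ q → hi s ≤ m + 1
  hi_al : ∀ s, s ≤ q → al σ (hi s)
  hi_ex : ∀ d, (σ 0 : ℕ) < d → d ≤ m + 1 → al σ d → ∃ s, s ≤ q ∧ hi s = d
  hi_zero : hi 0 = σ 0 + 1

theorem Rep.lo_anti' {m : ℕ} {σ : Perm (Fin (m + 1))} {p q : ℕ} {lo hi : ℕ → ℕ}
    (h : Rep σ p q lo hi) (i j : ℕ) (_ : 1 ≤ i) (_ : j ≤ p) (hj1 : 1 ≤ j) (hip : i ≤ p)
    (hl : lo j ≤ lo i) : i ≤ j := by
  by_contra hc
  have := h.lo_anti j i hj1 (by omega) hip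
  omega

theorem Rep.hi_mono' {m : ℕ} {σ : Perm (Fin (m + 1))} {p q : ℕ} {lo hi : ℕ → ℕ}
    (h : Rep σ p q lo hi) (i j : ℕ) (_ : j ≤ q) (hip : i ≤ q)
    (hl : hi i ≤ hi j) : i ≤ j := by
  by_contra hc
  have := h.hi_mono j i (by omega) hip
  omega

theorem rep_lo {m : ℕ} {σ : Perm (Fin (m + 1))} {p q : ℕ} {lo hi : ℕ → ℕ}
    (h : Rep σ p q lo hi) (i : ℕ) (hip : i < p) (c : Fin (m + 2)) (hc : (c : ℕ) = lo (i + 1)) :
    Rep (cons c σ) (p - i) (q + i + 1) (fun k => lo (i + k))
      (fun k => if k ≤ i then lo (i + 1 - k) + 1 else hi (k - i - 1) + 1) := by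
  have hc0 : (c : ℕ) ≤ σ 0 := by rw [hc]; exact h.lo_le _ (by omega) (by omega)
  have hal : al σ c := by rw [hc]; exact h.lo_al _ (by omega) (by omega)
  have hle : ∀ d, d ≤ (c : ℕ) → (al (cons c σ) d ↔ al σ d) := by
    intro d hd
    rw [al_cons_le c σ d hd]
    constructor
    · exact fun h => h.1
    · exact fun h => ⟨h, fun h' => absurd h' (by omega)⟩
  have hgt : ∀ d, (c : ℕ) < d → (al (cons c σ) d ↔ al σ (d - 1)) := fun d hd =>
    al_cons_gt c σ hal d hd
  refine ⟨?_, ?_, ?_, ?_, ?_, ?_, ?_, ?_, ?_, ?_⟩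
  · intro a b ha hab hb
    exact h.lo_anti _ _ (by omega) (by omega) (by omega)
  · intro a b hab hb
    by_cases hb' : b ≤ i
    · rw [if_pos hb', if_pos (by omega)]
      have := h.lo_anti (i + 1 - b) (i + 1 - a) (by omega) (by omega) (by omega)
      omega
    · by_cases ha' : a ≤ i
      · rw [if_neg hb', if_pos ha']
        have h1 := h.lo_le (i + 1 - a) (by omega) (by omega)
        have h2 := h.hi_gt (b - i - 1) (by omega)
        omega
      · rw [if_neg hb', if_neg ha']
        have := h.hi_mono (a - i - 1) (b - i - 1) (by omega) (by omega)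
        omega
  · intro a ha hap
    rw [cons_zero, hc]
    rcases Nat.eq_or_lt_of_le ha with h1 | h1
    · subst h1; exact le_rfl
    · exact le_of_lt (h.lo_anti _ _ (by omega) (by omega) (by omega))
  · intro a ha hap
    have h1 : lo (i + a) ≤ (c : ℕ) := by
      rw [hc]
      rcases Nat.eq_or_lt_of_le ha with h1 | h1
      · subst h1; exact le_rfl
      · exact le_of_lt (h.lo_anti _ _ (by omega) (by omega) (by omega))
    rw [hle _ h1]
    exact h.lo_al _ (by omega) (by omega)
  · intro d hd hdal
    rw [cons_zero] at hd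
    rw [hle d hd] at hdal
    obtain ⟨j, hj1, hjp, hj⟩ := h.lo_ex d (by omega) hdal
    have h1 : i + 1 ≤ j := h.lo_anti' (i + 1) j (by omega) hjp hj1 (by omega) (by omega)
    refine ⟨j - i, by omega, by omega, ?_⟩
    rw [← hj]
    congr 1
    omega
  · intro s hs
    rw [cons_zero]
    split_ifs with h1
    · rcases Nat.eq_zero_or_pos s with h2 | h2
      · subst h2; simp; omega
      · have := h.lo_anti (i + 1 - s) (i + 1) (by omega) (by omega) (by omega)
        omega
    · have := h.hi_gt (s - i - 1) (by omega)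
      omega
  · intro s hs
    split_ifs with h1
    · have := h.lo_le (i + 1 - s) (by omega) (by omega)
      have h2 := (σ 0).2
      omega
    · have := h.hi_le (s - i - 1) (by omega)
      omega
  · intro s hs
    split_ifs with h1
    · rw [hgt, Nat.add_sub_cancel]
      · exact h.lo_al _ (by omega) (by omega)
      · rcases Nat.eq_zero_or_pos s with h2 | h2
        · subst h2; simp; omega
        · have := h.lo_anti (i + 1 - s) (i + 1) (by omega) (by omega) (by omega)
          omega
    · rw [hgt, Nat.add_sub_cancel]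
      · exact h.hi_al _ (by omega)
      · have := h.hi_gt (s - i - 1) (by omega)
        omega
  · intro d hd hdm hdal
    rw [cons_zero] at hd
    rw [hgt d hd] at hdal
    by_cases h1 : d - 1 ≤ (σ 0 : ℕ)
    · obtain ⟨j, hj1, hjp, hj⟩ := h.lo_ex (d - 1) h1 hdal
      have h2 : j ≤ i + 1 := h.lo_anti' j (i + 1) hj1 (by omega) (by omega) hjp (by omega)
      refine ⟨i + 1 - j, by omega, ?_⟩
      rw [if_pos (by omega)]
      have h3 : i + 1 - (i + 1 - j) = j := by omega
      rw [h3]
      omega
    · obtain ⟨s, hs, hs'⟩ := h.hi_ex (d - 1) (by omega) (by omega) hdal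
      refine ⟨s + i + 1, by omega, ?_⟩
      rw [if_neg (by omega)]
      have h3 : s + i + 1 - i - 1 = s := by omega
      rw [h3]
      omega
  · rw [cons_zero]
    simp
    omega

theorem rep_hi {m : ℕ} {σ : Perm (Fin (m + 1))} {p q : ℕ} {lo hi : ℕ → ℕ}
    (h : Rep σ p q lo hi) (s : ℕ) (hsq : s ≤ q) (c : Fin (m + 2)) (hc : (c : ℕ) = hi s) :
    Rep (cons c σ) (p + s) (q - s)
      (fun k => if k ≤ s then hi (s + 1 - k) else lo (k - s))
      (fun k => hi (k + s) + 1) := by
  have hc0 : (σ 0 : ℕ) < (c : ℕ) := by rw [hc]; exact h.hi_gt _ (by omega)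
  have hal : al σ c := by rw [hc]; exact h.hi_al _ (by omega)
  have hle : ∀ d, d ≤ (c : ℕ) → (al (cons c σ) d ↔ al σ d ∧ d ≠ hi 0) := by
    intro d hd
    rw [al_cons_le c σ d hd, h.hi_zero]
    constructor
    · exact fun h => ⟨h.1, h.2 hc0⟩
    · exact fun h => ⟨h.1, fun h' => h.2⟩
  have hgt : ∀ d, (c : ℕ) < d → (al (cons c σ) d ↔ al σ (d - 1)) := fun d hd =>
    al_cons_gt c σ hal d hd
  refine ⟨?_, ?_, ?_, ?_, ?_, ?_, ?_, ?_, ?_, ?_⟩
  · intro a b ha hab hb
    by_cases hb' : b ≤ s
    · rw [if_pos hb', if_pos (by omega)]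
      exact h.hi_mono _ _ (by omega) (by omega)
    · by_cases ha' : a ≤ s
      · rw [if_neg hb', if_pos ha']
        have h1 := h.lo_le (b - s) (by omega) (by omega)
        have h2 := h.hi_gt (s + 1 - a) (by omega)
        omega
      · rw [if_neg hb', if_neg ha']
        exact h.lo_anti _ _ (by omega) (by omega) (by omega)
  · intro a b hab hb
    have := h.hi_mono (a + s) (b + s) (by omega) (by omega)
    omega
  · intro a ha hap
    rw [cons_zero, hc]
    split_ifs with h1
    · rcases Nat.eq_or_lt_of_le ha with h2 | h2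
      · subst h2; simp
      · exact le_of_lt (h.hi_mono _ _ (by omega) (by omega))
    · have h2 := h.lo_le (a - s) (by omega) (by omega)
      omega
  · intro a ha hap
    split_ifs with h1
    · rw [hle]
      · refine ⟨h.hi_al _ (by omega), ?_⟩
        have := h.hi_mono 0 (s + 1 - a) (by omega) (by omega)
        omega
      · rw [hc]
        rcases Nat.eq_or_lt_of_le ha with h2 | h2
        · subst h2; simp
        · exact le_of_lt (h.hi_mono _ _ (by omega) (by omega))
    · have h2 := h.lo_le (a - s) (by omega) (by omega)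
      rw [hle]
      · refine ⟨h.lo_al _ (by omega) (by omega), ?_⟩
        rw [h.hi_zero]
        omega
      · omega
  · intro d hd hdal
    rw [cons_zero] at hd
    rw [hle d hd] at hdal
    obtain ⟨hd1, hd2⟩ := hdal
    by_cases h1 : d ≤ (σ 0 : ℕ)
    · obtain ⟨j, hj1, hjp, hj⟩ := h.lo_ex d h1 hd1
      refine ⟨j + s, by omega, by omega, ?_⟩
      rw [if_neg (by omega)]
      rw [← hj]
      congr 1
      omega
    · have hcm := c.2
      obtain ⟨j, hj, hj'⟩ := h.hi_ex d (by omega) (by omega) hd1
      have h2 : j ≤ s := h.hi_mono' j s hsq hj (by omega)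
      have h3 : j ≠ 0 := by
        intro h0; subst h0; omega
      refine ⟨s + 1 - j, by omega, by omega, ?_⟩
      rw [if_pos (by omega)]
      rw [← hj']
      congr 1
      omega
  · intro k hk
    rw [cons_zero]
    rcases Nat.eq_zero_or_pos k with h2 | h2
    · subst h2; simp; omega
    · have := h.hi_mono s (k + s) (by omega) (by omega)
      omega
  · intro k hk
    have := h.hi_le (k + s) (by omega)
    omega
  · intro k hk
    rw [hgt, Nat.add_sub_cancel]
    · exact h.hi_al _ (by omega)
    · rcases Nat.eq_zero_or_pos k with h2 | h2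
      · subst h2; simp; omega
      · have := h.hi_mono s (k + s) (by omega) (by omega)
        omega
  · intro d hd hdm hdal
    rw [cons_zero] at hd
    rw [hgt d hd] at hdal
    obtain ⟨j, hj, hj'⟩ := h.hi_ex (d - 1) (by omega) (by omega) hdal
    have h1 : s ≤ j := h.hi_mono' s j hj hsq (by omega)
    refine ⟨j - s, by omega, ?_⟩
    have h3 : j - s + s = j := by omega
    rw [h3]
    omega
  · rw [cons_zero]
    simp
    omega

section

variable {R : Type*} [CommRing R]

noncomputable def Xf (u : R) {m : ℕ} (σ : Perm (Fin (m + 1))) (lo : ℕ → ℕ) (k : ℕ) : R :=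
  if k = 0 then u ^ cntMin σ (σ 0) else u ^ cntMin σ (lo k)

noncomputable def Hf (v : R) {m : ℕ} (σ : Perm (Fin (m + 1))) (hi : ℕ → ℕ) (k : ℕ) : R :=
  v ^ cntMax σ (hi k)

theorem Xf_zero (u : R) {m : ℕ} (σ : Perm (Fin (m + 1))) (lo : ℕ → ℕ) :
    Xf u σ lo 0 = u ^ cntMin σ (σ 0) := if_pos rfl

theorem Xf_pos (u : R) {m : ℕ} (σ : Perm (Fin (m + 1))) (lo : ℕ → ℕ) (k : ℕ) (hk : k ≠ 0) :
    Xf u σ lo k = u ^ cntMin σ (lo k) := if_neg hk

theorem cntMin_cons_le {m : ℕ} (c : Fin (m + 1)) (σ : Perm (Fin m)) (d : ℕ) (hd : d ≤ c) :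
    cntMin (cons c σ) d = cntMin σ d := by
  rw [cntMin_cons, if_neg (by omega), min_eq_right hd, zero_add]

theorem cntMax_cons_gt {m : ℕ} (c : Fin (m + 1)) (σ : Perm (Fin m)) (d : ℕ) (hd : (c : ℕ) ≤ d) :
    cntMax (cons c σ) (d + 1) = cntMax σ d := by
  rw [cntMax_cons, if_neg (by omega), Nat.add_sub_cancel, max_eq_right hd, zero_add]

theorem TT_eq_T (u v : R) : ∀ (k m : ℕ) (σ : Perm (Fin (m + 1))) (p q : ℕ) (lo hi : ℕ → ℕ),
    Rep σ p q lo hi → TT u v k (m + 1) σ = T u v k p q (Xf u σ lo) (Hf v σ hi)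
  | 0, m, σ, p, q, lo, hi, h => by
    rw [TT, T, cntMin_gt σ (m + 1) (σ 0).2, cntMax_le σ 0 (Nat.zero_le _)]
    unfold Xf Hf
    rw [if_pos rfl, h.hi_zero]
    ring
  | k + 1, m, σ, p, q, lo, hi, h => by
    classical
    rw [TT, T_succ]
    set f : ℕ → R := fun d => if hd : d < m + 2 then TT u v k (m + 2) (cons ⟨d, hd⟩ σ) else 0 with hf
    have h1 : (∑ c : Fin (m + 1 + 1), if al σ c then TT u v k (m + 1 + 1) (cons c σ) else 0) =
        ∑ d ∈ range (m + 2), if al σ d then f d else 0 := by
      rw [← Fin.sum_univ_eq_sum_range]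
      apply sum_congr rfl
      intro c _
      simp only [hf]
      rw [dif_pos c.2]
    have h2 : (range (m + 2)).filter (fun d => al σ d) =
        (range p).image (fun i => lo (i + 1)) ∪ (range (q + 1)).image hi := by
      ext d
      simp only [mem_filter, mem_union, mem_image, mem_range]
      constructor
      · rintro ⟨hd, hdal⟩
        by_cases h3 : d ≤ (σ 0 : ℕ)
        · left
          obtain ⟨i, hi1, hip, hi'⟩ := h.lo_ex d h3 hdal
          exact ⟨i - 1, by omega, by rw [← hi']; congr 1; omega⟩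
        · right
          obtain ⟨s, hs, hs'⟩ := h.hi_ex d (by omega) (by omega) hdal
          exact ⟨s, by omega, hs'⟩
      · rintro (⟨i, hip, rfl⟩ | ⟨s, hs, rfl⟩)
        · have h4 := h.lo_le (i + 1) (by omega) (by omega)
          have h5 := (σ 0).2
          exact ⟨by omega, h.lo_al _ (by omega) (by omega)⟩
        · have h4 := h.hi_le s (by omega)
          exact ⟨by omega, h.hi_al _ (by omega)⟩
    have h3 : Disjoint ((range p).image (fun i => lo (i + 1))) ((range (q + 1)).image hi) := by
      rw [disjoint_left]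
      intro d hd hd'
      simp only [mem_image, mem_range] at hd hd'
      obtain ⟨i, hip, rfl⟩ := hd
      obtain ⟨s, hs, hs'⟩ := hd'
      have h4 := h.lo_le (i + 1) (by omega) (by omega)
      have h5 := h.hi_gt s (by omega)
      omega
    rw [h1, ← sum_filter, h2, sum_union h3, sum_image, sum_image]
    · congr 1
      · apply sum_congr rfl
        intro i hi'
        rw [mem_range] at hi'
        have h4 := h.lo_le (i + 1) (by omega) (by omega)
        have h5 := (σ 0).2
        have h6 : lo (i + 1) < m + 2 := by omega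
        simp only [hf]
        rw [dif_pos h6, TT_eq_T u v k (m + 1) _ _ _ _ _ (rep_lo h i hi' ⟨lo (i + 1), h6⟩ rfl)]
        apply T_congr
        · intro j hj
          by_cases hj0 : j = 0
          · subst hj0
            unfold XI
            rw [if_pos rfl, Xf_zero, Xf_pos _ _ _ _ (Nat.succ_ne_zero i), cons_zero,
              cntMin_cons_le _ _ _ le_rfl]
          · have h7 : lo (i + j) ≤ lo (i + 1) := by
              rcases Nat.eq_or_lt_of_le (Nat.pos_of_ne_zero hj0) with h8 | h8
              · rw [← h8]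
              · exact le_of_lt (h.lo_anti _ _ (by omega) (by omega) (by omega))
            unfold XI
            rw [if_neg hj0, Xf_pos _ _ _ _ hj0, Xf_pos _ _ _ _ (by omega),
              cntMin_cons_le _ _ _ h7]
        · intro j hj
          unfold Hf HI
          by_cases h8 : j ≤ i
          · simp only [if_pos h8]
            have h10 := h.lo_le (i + 1 - j) (by omega) (by omega)
            have h11 : lo (i + 1) ≤ lo (i + 1 - j) := by
              rcases Nat.eq_zero_or_pos j with h2 | h2
              · subst h2; simp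
              · exact le_of_lt (h.lo_anti (i + 1 - j) (i + 1) (by omega) (by omega) (by omega))
            rw [cntMax_cons_gt _ _ _ h11, cntMax_le _ _ h10, h.hi_zero, pow_add, pow_one]
          · simp only [if_neg h8]
            have h10 := h.hi_gt (j - i - 1) (by omega)
            rw [cntMax_cons_gt]
            exact le_of_lt (lt_of_le_of_lt h4 h10)
      · apply sum_congr rfl
        intro s hs
        rw [mem_range] at hs
        have h4 := h.hi_le s (by omega)
        have h5 := h.hi_gt s (by omega)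
        have h6 : hi s < m + 2 := by omega
        simp only [hf]
        rw [dif_pos h6, TT_eq_T u v k (m + 1) _ _ _ _ _ (rep_hi h s (by omega) ⟨hi s, h6⟩ rfl)]
        apply T_congr
        · intro j hj
          unfold XJ
          by_cases hj0 : j = 0
          · subst hj0
            rw [if_pos (Nat.zero_le _), Xf_zero, Xf_zero, cons_zero, cntMin_cons_le _ _ _ le_rfl,
              cntMin_gt _ _ h5, pow_add, pow_one]
          · rw [Xf_pos _ _ _ _ hj0]
            by_cases h8 : j ≤ s
            · have h7 : hi (s + 1 - j) ≤ hi s := by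
                rcases Nat.eq_or_lt_of_le (Nat.pos_of_ne_zero hj0) with h8 | h8
                · rw [← h8]; simp
                · exact le_of_lt (h.hi_mono _ _ (by omega) (by omega))
              have h9 := h.hi_gt (s + 1 - j) (by omega)
              simp only [if_pos h8]
              rw [cntMin_cons_le _ _ _ h7, cntMin_gt _ _ h9, pow_add, pow_one, Xf_zero]
            · have h9 := h.lo_le (j - s) (by omega) (by omega)
              simp only [if_neg h8]
              rw [cntMin_cons_le _ _ _ (le_trans h9 (le_of_lt h5)), Xf_pos _ _ _ _ (by omega)]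
        · intro j hj
          unfold Hf HJ
          have h7 : hi s ≤ hi (j + s) := by
            rcases Nat.eq_zero_or_pos j with h8 | h8
            · rw [h8]; simp
            · exact le_of_lt (h.hi_mono _ _ (by omega) (by omega))
          rw [cntMax_cons_gt _ _ _ h7]
    · intro a ha b hb hab
      simp only [coe_range, Set.mem_Iio] at ha hb
      have h5 := h.hi_mono' a b (by omega) (by omega) (by omega)
      have h6 := h.hi_mono' b a (by omega) (by omega) (by omega)
      omega
    · intro a ha b hb hab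
      simp only [coe_range, Set.mem_Iio] at ha hb
      simp only at hab
      have h5 := h.lo_anti' (a + 1) (b + 1) (by omega) (by omega) (by omega) (by omega) (by omega)
      have h6 := h.lo_anti' (b + 1) (a + 1) (by omega) (by omega) (by omega) (by omega) (by omega)
      omega

theorem rep_one (σ : Perm (Fin 1)) : Rep σ 1 0 (fun _ => 0) (fun _ => 1) := by
  have h0 : (σ 0 : ℕ) = 0 := by omega
  have hal : ∀ d, al σ d := by
    intro d x z hxz
    omega
  refine ⟨?_, ?_, ?_, ?_, ?_, ?_, ?_, ?_, ?_, ?_⟩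
  · intro i j h1 h2 h3; omega
  · intro i j h1 h2; omega
  · intro i h1 h2; omega
  · intro i h1 h2; exact hal _
  · intro d hd _; exact ⟨1, le_rfl, le_rfl, by omega⟩
  · intro s hs; omega
  · intro s hs; omega
  · intro s hs; exact hal _
  · intro d hd hd' _; exact ⟨0, le_rfl, by omega⟩
  · omega

theorem FF_one_w (u v : R) (k : ℕ) : FF u v 1 k = w u v k 1 1 := by
  classical
  unfold FF
  rw [Fintype.sum_unique, if_pos, TT_eq_T u v k 0 _ _ _ _ _ (rep_one _), ← T_eq_w]
  · apply T_congr
    · intro j hj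
      unfold Xf
      have h1 : ∀ σ : Perm (Fin 1), cntMin σ 0 = 0 := by
        intro σ
        unfold cntMin
        simp
      have h0 : ∀ σ : Perm (Fin 1), (σ 0 : ℕ) = 0 := by
        intro σ; omega
      rw [h0, h1]
      simp
    · intro j hj
      unfold Hf
      have h1 : ∀ σ : Perm (Fin 1), cntMax σ 1 = 0 := by
        intro σ
        unfold cntMax
        rw [card_eq_zero, filter_eq_empty_iff]
        intro x _ h
        omega
      rw [h1]
      simp
  · intro x y z hxz
    omega

theorem FF_symm (u v : R) (n : ℕ) : FF u v (n + 1) 0 = FF v u (n + 1) 0 := by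
  rw [FF_one u v, FF_one v u, FF_one_w u v, FF_one_w v u, w_one_one]

end

end Pool.Agent.J6H11.Fish
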