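import Pool.Agent.J6H11.Fish.Alg

set_option autoImplicit false

namespace Pool.Agent.J6H11.Fish

open Finset

section

variable {R : Type*} [CommRing R]

def XI (i : ℕ) (X : ℕ → R) (k : ℕ) : R := if k = 0 then X (i + 1) else X (i + k)
def HI (v : R) (i : ℕ) (H : ℕ → R) (k : ℕ) : R := if k ≤ i then v * H 0 else H (k - i - 1)
def XJ (u : R) (s : ℕ) (X : ℕ → R) (k : ℕ) : R := if k ≤ s then u * X 0 else X (k - s)
def HJ (s : ℕ) (H : ℕ → R) (k : ℕ) : R := H (k + s)

/-- the tree functional -/
def T (u v : R) : ℕ → ℕ → ℕ → (ℕ → R) → (ℕ → R) → R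
  | 0, _, _, X, H => u * v * X 0 * H 0
  | n + 1, p, q, X, H =>
      ∑ i ∈ range p, T u v n (p - i) (q + i + 1) (XI i X) (HI v i H)
      + ∑ s ∈ range (q + 1), T u v n (p + s) (q - s) (XJ u s X) (HJ s H)

theorem T_succ (u v : R) (n p q : ℕ) (X H : ℕ → R) : T u v (n + 1) p q X H =
      ∑ i ∈ range p, T u v n (p - i) (q + i + 1) (XI i X) (HI v i H)
      + ∑ s ∈ range (q + 1), T u v n (p + s) (q - s) (XJ u s X) (HJ s H) := by
  rw [T]

theorem T_addX (u v : R) : ∀ (n p q : ℕ) (X X' H : ℕ → R),
    T u v n p q (fun k => X k + X' k) H = T u v n p q X H + T u v n p q X' H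
  | 0, p, q, X, X', H => by simp only [T]; ring
  | n + 1, p, q, X, X', H => by
    simp only [T_succ]
    have h1 : ∀ i, XI i (fun k => X k + X' k) = fun k => XI i X k + XI i X' k := by
      intro i; funext k; unfold XI; split_ifs <;> rfl
    have h2 : ∀ i, XJ u i (fun k => X k + X' k) = fun k => XJ u i X k + XJ u i X' k := by
      intro i; funext k; unfold XJ; split_ifs <;> ring
    simp only [h1, h2, T_addX u v n, sum_add_distrib]
    ring

theorem T_mulX (u v : R) (c : R) : ∀ (n p q : ℕ) (X H : ℕ → R),
    T u v n p q (fun k => c * X k) H = c * T u v n p q X H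
  | 0, p, q, X, H => by simp only [T]; ring
  | n + 1, p, q, X, H => by
    simp only [T_succ]
    have h1 : ∀ i, XI i (fun k => c * X k) = fun k => c * XI i X k := by
      intro i; funext k; unfold XI; split_ifs <;> rfl
    have h2 : ∀ i, XJ u i (fun k => c * X k) = fun k => c * XJ u i X k := by
      intro i; funext k; unfold XJ; split_ifs <;> ring
    simp only [h1, h2, T_mulX u v c n, ← mul_sum]
    ring

theorem T_addH (u v : R) : ∀ (n p q : ℕ) (X H H' : ℕ → R),
    T u v n p q X (fun k => H k + H' k) = T u v n p q X H + T u v n p q X H'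
  | 0, p, q, X, H, H' => by simp only [T]; ring
  | n + 1, p, q, X, H, H' => by
    simp only [T_succ]
    have h1 : ∀ i, HI v i (fun k => H k + H' k) = fun k => HI v i H k + HI v i H' k := by
      intro i; funext k; unfold HI; split_ifs <;> ring
    have h2 : ∀ i, HJ i (fun k => H k + H' k) = fun k => HJ i H k + HJ i H' k := by
      intro i; funext k; unfold HJ; rfl
    simp only [h1, h2, T_addH u v n, sum_add_distrib]
    ring

theorem T_mulH (u v : R) (c : R) : ∀ (n p q : ℕ) (X H : ℕ → R),
    T u v n p q X (fun k => c * H k) = c * T u v n p q X H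
  | 0, p, q, X, H => by simp only [T]; ring
  | n + 1, p, q, X, H => by
    simp only [T_succ]
    have h1 : ∀ i, HI v i (fun k => c * H k) = fun k => c * HI v i H k := by
      intro i; funext k; unfold HI; split_ifs <;> ring
    have h2 : ∀ i, HJ i (fun k => c * H k) = fun k => c * HJ i H k := by
      intro i; funext k; unfold HJ; rfl
    simp only [h1, h2, T_mulH u v c n, ← mul_sum]
    ring

theorem T_zeroX (u v : R) : ∀ (n p q : ℕ) (X H : ℕ → R), (∀ k ≤ p, X k = 0) →
    T u v n p q X H = 0
  | 0, p, q, X, H, hX => by simp only [T]; rw [hX 0 (Nat.zero_le _)]; ring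
  | n + 1, p, q, X, H, hX => by
    rw [T_succ, sum_eq_zero, sum_eq_zero, add_zero]
    · intro s _
      apply T_zeroX u v n
      intro k hk
      unfold XJ
      split_ifs with h
      · rw [hX 0 (Nat.zero_le _), mul_zero]
      · exact hX _ (by omega)
    · intro i hi
      rw [mem_range] at hi
      apply T_zeroX u v n
      intro k hk
      unfold XI
      split_ifs with h
      · exact hX _ (by omega)
      · exact hX _ (by omega)

theorem T_zeroH (u v : R) : ∀ (n p q : ℕ) (X H : ℕ → R), (∀ k ≤ q, H k = 0) →
    T u v n p q X H = 0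
  | 0, p, q, X, H, hX => by simp only [T]; rw [hX 0 (Nat.zero_le _)]; ring
  | n + 1, p, q, X, H, hX => by
    rw [T_succ, sum_eq_zero, sum_eq_zero, add_zero]
    · intro s hs
      rw [mem_range] at hs
      apply T_zeroH u v n
      intro k hk
      unfold HJ
      exact hX _ (by omega)
    · intro i hi
      apply T_zeroH u v n
      intro k hk
      unfold HI
      split_ifs with h
      · rw [hX 0 (Nat.zero_le _), mul_zero]
      · exact hX _ (by omega)

theorem T_trX (u v : R) : ∀ (n p q r : ℕ) (X X' H : ℕ → R), r ≤ p → (∀ k ≤ r, X k = X' k) →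
    (∀ k, r < k → k ≤ p → X k = 0) → T u v n p q X H = T u v n r q X' H
  | 0, p, q, r, X, X', H, _, h1, _ => by simp only [T]; rw [h1 0 (Nat.zero_le _)]
  | n + 1, p, q, r, X, X', H, hr, h1, h2 => by
    rw [T_succ, T_succ]
    congr 1
    · rw [← sum_range_add_sum_Ico _ hr]
      rw [sum_eq_zero (s := Ico r p), add_zero]
      · apply sum_congr rfl
        intro i hi
        rw [mem_range] at hi
        apply T_trX u v n
        · omega
        · intro k hk
          unfold XI
          split_ifs with h
          · exact h1 _ (by omega)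
          · exact h1 _ (by omega)
        · intro k hk hk'
          unfold XI
          rw [if_neg (by omega)]
          exact h2 _ (by omega) (by omega)
      · intro i hi
        rw [mem_Ico] at hi
        apply T_zeroX
        intro k hk
        unfold XI
        split_ifs with h
        · exact h2 _ (by omega) (by omega)
        · exact h2 _ (by omega) (by omega)
    · apply sum_congr rfl
      intro s _
      apply T_trX u v n
      · omega
      · intro k hk
        unfold XJ
        split_ifs with h
        · rw [h1 0 (Nat.zero_le _)]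
        · exact h1 _ (by omega)
      · intro k hk hk'
        unfold XJ
        rw [if_neg (by omega)]
        exact h2 _ (by omega) (by omega)

theorem T_trH (u v : R) : ∀ (n p q r : ℕ) (X H H' : ℕ → R), r ≤ q → (∀ k ≤ r, H k = H' k) →
    (∀ k, r < k → k ≤ q → H k = 0) → T u v n p q X H = T u v n p r X H'
  | 0, p, q, r, X, H, H', _, h1, _ => by simp only [T]; rw [h1 0 (Nat.zero_le _)]
  | n + 1, p, q, r, X, H, H', hr, h1, h2 => by
    rw [T_succ, T_succ]
    congr 1
    · apply sum_congr rfl
      intro i hi
      rw [mem_range] at hi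
      apply T_trH u v n
      · omega
      · intro k hk
        unfold HI
        split_ifs with h
        · rw [h1 0 (Nat.zero_le _)]
        · exact h1 _ (by omega)
      · intro k hk hk'
        unfold HI
        rw [if_neg (by omega)]
        exact h2 _ (by omega) (by omega)
    · rw [← sum_range_add_sum_Ico _ (Nat.succ_le_succ hr)]
      rw [sum_eq_zero (s := Ico r.succ q.succ), add_zero]
      · apply sum_congr rfl
        intro i hi
        rw [mem_range] at hi
        apply T_trH u v n
        · omega
        · intro k hk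
          unfold HJ
          exact h1 _ (by omega)
        · intro k hk hk'
          unfold HJ
          exact h2 _ (by omega) (by omega)
      · intro i hi
        rw [mem_Ico] at hi
        apply T_zeroH
        intro k hk
        unfold HJ
        exact h2 _ (by omega) (by omega)

theorem T_congr (u v : R) (n p q : ℕ) (X X' H H' : ℕ → R) (hX : ∀ k ≤ p, X k = X' k)
    (hH : ∀ k ≤ q, H k = H' k) : T u v n p q X H = T u v n p q X' H' := by
  rw [T_trX u v n p q p X X' H le_rfl hX (fun k h1 h2 => absurd h1 (by omega)),
    T_trH u v n p q q X' H H' le_rfl hH (fun k h1 h2 => absurd h1 (by omega))]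

/-- The value at the constant weights. -/
theorem T_eq_w (u v : R) : ∀ (n P q : ℕ),
    T u v n P q (fun _ => 1) (fun _ => 1) = w u v n P (q + 1)
  | 0, P, q => by simp [T, w]
  | n + 1, P, q => by
    have hXI : ∀ i, XI i (fun _ => (1 : R)) = fun _ => 1 := by
      intro i; funext k; unfold XI; split_ifs <;> rfl
    have hHJ : ∀ i, HJ i (fun _ => (1 : R)) = fun _ => 1 := by
      intro i; funext k; rfl
    have hHI : ∀ i, HI v i (fun _ => (1 : R)) =
        fun k => 1 + (v - 1) * (if k ≤ i then 1 else 0) := by
      intro i; funext k; unfold HI; split_ifs <;> ring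
    have hXJ : ∀ i, XJ u i (fun _ => (1 : R)) =
        fun k => 1 + (u - 1) * (if k ≤ i then 1 else 0) := by
      intro i; funext k; unfold XJ; split_ifs <;> ring
    have h1 : ∀ i < P, T u v n (P - i) (q + i + 1) (XI i (fun _ => (1 : R)))
        (HI v i (fun _ => (1 : R))) = w u v n (P - i) (q + 1 + 1 + i)
          + (v - 1) * w u v n (P - i) (i + 1) := by
      intro i hi
      rw [hXI, hHI, T_addH u v n _ _ _ (fun _ => 1), T_mulH, T_eq_w u v n]
      rw [T_trH u v n _ _ i _ _ (fun _ => 1) (by omega) (fun k hk => if_pos hk)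
        (fun k hk _ => if_neg (by omega)), T_eq_w u v n]
      congr 2
      ring
    have h2 : ∀ s < q + 1, T u v n (P + s) (q - s) (XJ u s (fun _ => (1 : R)))
        (HJ s (fun _ => (1 : R))) = w u v n (P + s) (q + 1 - s)
          + (u - 1) * w u v n s (q + 1 - s) := by
      intro i hi
      rw [hXJ, hHJ, T_addX u v n _ _ (fun _ => 1), T_mulX, T_eq_w u v n]
      rw [T_trX u v n _ _ i _ (fun _ => 1) _ (by omega) (fun k hk => if_pos hk)
        (fun k hk _ => if_neg (by omega)), T_eq_w u v n]
      have : q - i + 1 = q + 1 - i := by omega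
      rw [this]
    rw [T_succ, sum_congr rfl (fun i hi => h1 i (mem_range.1 hi)),
      sum_congr rfl (fun i hi => h2 i (mem_range.1 hi)), w_succ, sum_add_distrib, sum_add_distrib,
      ← mul_sum, ← mul_sum, sum_range_succ' _ q, sum_range_succ' _ q]
    have h3 : EE (w u v n) (P + 1) = ∑ i ∈ range P, w u v n (P - i) (i + 1) := by
      unfold EE
      rw [← sum_range_reflect]
      apply sum_congr (by simp)
      intro j hj
      simp only [mem_range, add_tsub_cancel_right] at hj
      congr 1 <;> simp <;> omega
    rw [h3]
    simp only [SS, EE, Nat.add_sub_cancel, Nat.sub_zero, Nat.add_zero]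
    ring

end

end Pool.Agent.J6H11.Fish
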